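import Pool.Agent.Helper88.T4.Poly

set_option autoImplicit false

/-! Module IBP of the project T4: Gaussian integration by parts. -/

open Finset MeasureTheory Filter Topology

namespace Pool.Agent.Helper88.T4

open Pool.Agent.Helper15.T4

section

variable {ι : Type} [Fintype ι]

theorem line_nsq [DecidableEq ι] (x : ι → ℝ) (i : ι) :
    HasDerivAt (fun t : ℝ => nsq (x + t • (Pi.single i (1 : ℝ) : ι → ℝ))) (2 * x i) 0 := by
  have h : (fun t : ℝ => nsq (x + t • (Pi.single i (1 : ℝ) : ι → ℝ))) =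
      fun t : ℝ => nsq x + 2 * x i * t + t ^ 2 := by
    funext t
    unfold nsq
    have e : ∀ j, (x + t • (Pi.single i (1 : ℝ) : ι → ℝ)) j ^ 2 =
        x j ^ 2 + (if j = i then 2 * x i * t + t ^ 2 else 0) := by
      intro j
      by_cases hj : j = i
      · subst hj
        simp
        ring
      · simp [hj]
    simp_rw [e]
    rw [Finset.sum_add_distrib, Finset.sum_ite_eq' Finset.univ i]
    simp
    ring
  rw [h]
  have h1 : HasDerivAt (fun t : ℝ => nsq x + 2 * x i * t + t ^ 2)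
      (0 + 2 * x i * 1 + ((2 : ℕ) : ℝ) * (0 : ℝ) ^ (2 - 1) * 1) 0 := by
    apply HasDerivAt.add
    · apply HasDerivAt.add
      · exact hasDerivAt_const _ _
      · exact (hasDerivAt_id (0 : ℝ)).const_mul (2 * x i)
    · exact (hasDerivAt_id (0 : ℝ)).pow 2
  simpa using h1

theorem line_gauss [DecidableEq ι] (x : ι → ℝ) (i : ι) :
    HasLineDerivAt ℝ (fun x : ι → ℝ => ((Real.exp (-(nsq x) / 2) : ℝ) : ℂ))
      (-(x i : ℂ) * ((Real.exp (-(nsq x) / 2) : ℝ) : ℂ)) x (Pi.single i 1) := by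
  unfold HasLineDerivAt
  have h1 := ((line_nsq x i).neg.div_const 2).exp
  have h2 := h1.ofReal_comp
  have e : Real.exp ((-fun t : ℝ => nsq (x + t • (Pi.single i (1 : ℝ) : ι → ℝ))) 0 / 2) =
      Real.exp (-(nsq x) / 2) := by
    simp
  have e3 : -(x i : ℂ) * ((Real.exp (-(nsq x) / 2) : ℝ) : ℂ) =
      ((Real.exp ((-fun t : ℝ => nsq (x + t • (Pi.single i (1 : ℝ) : ι → ℝ))) 0 / 2) *
        (-(2 * x i) / 2) : ℝ) : ℂ) := by
    rw [e]
    push_cast
    ring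
  rw [e3]
  exact h2

theorem line_lin [DecidableEq ι] (l : ι → ℂ) (x : ι → ℝ) (i : ι) :
    HasDerivAt (fun t : ℝ => ∑ j, l j * (((x + t • (Pi.single i (1 : ℝ) : ι → ℝ)) j : ℝ) : ℂ))
      (l i) 0 := by
  have h : (fun t : ℝ => ∑ j, l j * (((x + t • (Pi.single i (1 : ℝ) : ι → ℝ)) j : ℝ) : ℂ)) =
      fun t : ℝ => (∑ j, l j * (x j : ℂ)) + (t : ℂ) * l i := by
    funext t
    have e : ∀ j, l j * (((x + t • (Pi.single i (1 : ℝ) : ι → ℝ)) j : ℝ) : ℂ) =
        l j * (x j : ℂ) + (if j = i then (t : ℂ) * l i else 0) := by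
      intro j
      by_cases hj : j = i
      · subst hj
        simp
        ring
      · simp [hj]
    simp_rw [e]
    rw [Finset.sum_add_distrib, Finset.sum_ite_eq' Finset.univ i]
    simp
  rw [h]
  have h1 : HasDerivAt (fun t : ℝ => (t : ℂ)) 1 0 := by
    simpa using (hasDerivAt_id (0 : ℝ)).ofReal_comp
  have h2 : HasDerivAt (fun t : ℝ => (∑ j, l j * (x j : ℂ)) + (t : ℂ) * l i) (0 + 1 * l i) 0 :=
    (hasDerivAt_const _ _).add (h1.mul_const _)
  simpa using h2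

theorem line_prod {H : Type} [DecidableEq H] [DecidableEq ι] (s : Finset H) (l : H → ι → ℂ)
    (x : ι → ℝ) (i : ι) :
    HasLineDerivAt ℝ (fun x : ι → ℝ => ∏ h ∈ s, ∑ j, l h j * (x j : ℂ))
      (∑ h' ∈ s, (∏ h ∈ s.erase h', ∑ j, l h j * (x j : ℂ)) * l h' i) x (Pi.single i 1) := by
  unfold HasLineDerivAt
  have := HasDerivAt.fun_finsetProd (u := s)
    (f := fun h (t : ℝ) => ∑ j, l h j * (((x + t • (Pi.single i (1 : ℝ) : ι → ℝ)) j : ℝ) : ℂ))
    (f' := fun h => l h i) (x := 0) (fun h _ => line_lin (l h) x i)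
  simpa using this

theorem ibp1 {H : Type} [DecidableEq H] (s : Finset H) (l : H → ι → ℂ) (i : ι) :
    ∫ x : ι → ℝ, (x i : ℂ) * (∏ h ∈ s, ∑ j, l h j * (x j : ℂ)) *
        ((Real.exp (-(nsq x) / 2) : ℝ) : ℂ) =
      ∑ h' ∈ s, l h' i * ∫ x : ι → ℝ, (∏ h ∈ s.erase h', ∑ j, l h j * (x j : ℂ)) *
        ((Real.exp (-(nsq x) / 2) : ℝ) : ℂ) := by
  classical
  have hP : ∀ t : Finset H, PG (fun x : ι → ℝ => ∏ h ∈ t, ∑ j, l h j * (x j : ℂ)) :=
    fun t => PG.prod _ _ (fun h _ => PG.lin (l h))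
  have hI : ∀ φ : (ι → ℝ) → ℂ, PG φ →
      Integrable (fun x : ι → ℝ => φ x * ((Real.exp (-(nsq x) / 2) : ℝ) : ℂ)) := by
    intro φ hφ
    have := hφ.integrable (1 / 2) (by norm_num)
    have e : ∀ x : ι → ℝ, -(1 / 2 * nsq x) = -(nsq x) / 2 := fun x => by ring
    simp_rw [e] at this
    exact this
  have hD : PG (fun x : ι → ℝ =>
      ∑ h' ∈ s, (∏ h ∈ s.erase h', ∑ j, l h j * (x j : ℂ)) * l h' i) :=
    PG.sum _ _ (fun h _ => (hP _).mul (PG.const _))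
  have key := integral_bilinear_hasLineDerivAt_right_eq_neg_left_of_integrable
    (μ := (volume : Measure (ι → ℝ))) (B := ContinuousLinearMap.mul ℝ ℂ)
    (f := fun x : ι → ℝ => ∏ h ∈ s, ∑ j, l h j * (x j : ℂ))
    (f' := fun x : ι → ℝ => ∑ h' ∈ s, (∏ h ∈ s.erase h', ∑ j, l h j * (x j : ℂ)) * l h' i)
    (g := fun x : ι → ℝ => ((Real.exp (-(nsq x) / 2) : ℝ) : ℂ))
    (g' := fun x : ι → ℝ => -(x i : ℂ) * ((Real.exp (-(nsq x) / 2) : ℝ) : ℂ))
    (v := Pi.single i 1)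
    (hI _ hD)
    (by
      have h1 := hI _ ((hP s).mul ((PG.const (-1)).mul (PG.coord i)))
      refine h1.congr ?_
      filter_upwards with x
      simp only [ContinuousLinearMap.mul_apply']
      ring)
    (by simpa using hI _ (hP s))
    (fun x _ => line_prod s l x i)
    (fun x _ => line_gauss x i)
  simp only [ContinuousLinearMap.mul_apply'] at key
  have e1 : ∫ x : ι → ℝ, (x i : ℂ) * (∏ h ∈ s, ∑ j, l h j * (x j : ℂ)) *
      ((Real.exp (-(nsq x) / 2) : ℝ) : ℂ) = - ∫ x : ι → ℝ,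
      (∏ h ∈ s, ∑ j, l h j * (x j : ℂ)) * (-(x i : ℂ) * ((Real.exp (-(nsq x) / 2) : ℝ) : ℂ)) := by
    rw [← integral_neg]
    congr 1
    funext x
    ring
  rw [e1, key, neg_neg]
  have e2 : ∀ x : ι → ℝ, (∑ h' ∈ s, (∏ h ∈ s.erase h', ∑ j, l h j * (x j : ℂ)) * l h' i) *
      ((Real.exp (-(nsq x) / 2) : ℝ) : ℂ) = ∑ h' ∈ s, l h' i *
      ((∏ h ∈ s.erase h', ∑ j, l h j * (x j : ℂ)) * ((Real.exp (-(nsq x) / 2) : ℝ) : ℂ)) := by
    intro x
    rw [Finset.sum_mul]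
    apply Finset.sum_congr rfl
    intro h _
    ring
  simp_rw [e2]
  rw [integral_finsetSum]
  · apply Finset.sum_congr rfl
    intro h _
    exact integral_const_mul _ _
  · intro h _
    exact (hI _ (hP _)).const_mul _

end

theorem IBP : ST_IBP := by
  intro H ι _ _ s l k
  classical
  have hP : ∀ t : Finset H, PG (fun x : ι → ℝ => ∏ h ∈ t, ∑ j, l h j * (x j : ℂ)) :=
    fun t => PG.prod _ _ (fun h _ => PG.lin (l h))
  have hI : ∀ φ : (ι → ℝ) → ℂ, PG φ →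
      Integrable (fun x : ι → ℝ => φ x * ((Real.exp (-(nsq x) / 2) : ℝ) : ℂ)) := by
    intro φ hφ
    have := hφ.integrable (1 / 2) (by norm_num)
    have e : ∀ x : ι → ℝ, -(1 / 2 * nsq x) = -(nsq x) / 2 := fun x => by ring
    simp_rw [e] at this
    exact this
  unfold GI
  have e1 : ∫ x : ι → ℝ, ((∑ i, k i * (x i : ℂ)) * ∏ h ∈ s, ∑ i, l h i * (x i : ℂ)) *
      ((Real.exp (-(nsq x) / 2) : ℝ) : ℂ) = ∑ i, k i * ∫ x : ι → ℝ, (x i : ℂ) *
      (∏ h ∈ s, ∑ j, l h j * (x j : ℂ)) * ((Real.exp (-(nsq x) / 2) : ℝ) : ℂ) := by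
    have e2 : ∀ x : ι → ℝ, ((∑ i, k i * (x i : ℂ)) * ∏ h ∈ s, ∑ i, l h i * (x i : ℂ)) *
        ((Real.exp (-(nsq x) / 2) : ℝ) : ℂ) = ∑ i, k i * ((x i : ℂ) *
        (∏ h ∈ s, ∑ j, l h j * (x j : ℂ)) * ((Real.exp (-(nsq x) / 2) : ℝ) : ℂ)) := by
      intro x
      rw [Finset.sum_mul, Finset.sum_mul]
      apply Finset.sum_congr rfl
      intro i _
      ring
    simp_rw [e2]
    rw [integral_finsetSum]
    · apply Finset.sum_congr rfl
      intro i _
      exact integral_const_mul _ _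
    · intro i _
      exact (hI _ ((PG.coord i).mul (hP s))).const_mul _
  rw [e1]
  simp_rw [ibp1]
  rw [Finset.mul_sum]
  simp_rw [Finset.mul_sum, Finset.sum_mul]
  rw [Finset.sum_comm]
  apply Finset.sum_congr rfl
  intro h _
  apply Finset.sum_congr rfl
  intro i _
  ring

end Pool.Agent.Helper88.T4
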