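import Pool.Agent.Helper88.T4.Peak

set_option autoImplicit false

/-! Module LAP of the project T4: the Laplace method at a peak. -/

open Finset MeasureTheory Filter Topology

namespace Pool.Agent.Helper88.T4

open Pool.Agent.Helper15.T4

section

variable {ι : Type} [Fintype ι] {P : (ι → ℝ) → ℂ} {u : ι → ℝ} {q : ℝ} {Q : (ι → ℝ) → ℂ}

/-- the open half space -/
def Hs (u : ι → ℝ) : Set (ι → ℝ) := {y | 0 < ∑ i, u i * y i}

theorem Hs_open (u : ι → ℝ) : IsOpen (Hs u) := isOpen_lt continuous_const (by fun_prop)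

theorem u_mem (hP : Peak P u q Q) : u ∈ Hs u := by
  change 0 < ∑ i, u i * u i
  have : ∑ i, u i * u i = nsq u := by
    unfold nsq
    exact Finset.sum_congr rfl (fun i _ => by ring)
  rw [this, hP.u1]
  exact one_pos

theorem nf_lim (hP : Peak P u q Q) (s : ι → ℝ) :
    Tendsto (fun k : ℕ => nf P q (u + (Real.sqrt k)⁻¹ • s) ^ k) atTop
      (𝓝 (Complex.exp (-(Q s) / 2))) := by
  obtain ⟨C0, hC⟩ := hP.exp
  have hnn := nsq_nonneg s
  have hg : Tendsto (fun k : ℕ => (k : ℂ) * (nf P q (u + (Real.sqrt k)⁻¹ • s) - 1)) atTop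
      (𝓝 (-(Q s) / 2)) := by
    rw [tendsto_iff_norm_sub_tendsto_zero]
    have hlim : Tendsto (fun k : ℕ => (max C0 0 * Real.sqrt (nsq s) ^ 3) * (Real.sqrt k)⁻¹) atTop
        (𝓝 ((max C0 0 * Real.sqrt (nsq s) ^ 3) * 0)) := by
      apply Tendsto.const_mul
      apply Tendsto.inv_tendsto_atTop
      exact Real.tendsto_sqrt_atTop.comp tendsto_natCast_atTop_atTop
    rw [mul_zero] at hlim
    refine squeeze_zero' (Eventually.of_forall (fun _ => norm_nonneg _)) ?_ hlim
    have hev : ∀ᶠ k : ℕ in atTop, nsq s ≤ k ∧ 1 ≤ k := by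
      have h1 : ∀ᶠ k : ℕ in atTop, nsq s ≤ (k : ℝ) :=
        tendsto_natCast_atTop_atTop.eventually_ge_atTop _
      exact h1.and (eventually_ge_atTop 1)
    filter_upwards [hev] with k hk
    obtain ⟨hk1, hk2⟩ := hk
    have hkpos : (0 : ℝ) < k := by exact_mod_cast hk2
    have hsq : Real.sqrt k ^ 2 = k := Real.sq_sqrt hkpos.le
    have hsp : 0 < Real.sqrt k := Real.sqrt_pos.mpr hkpos
    have hn : nsq ((Real.sqrt k)⁻¹ • s) = nsq s / k := by
      rw [nsq_smul, inv_pow, hsq]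
      field_simp
    have hn1 : nsq ((Real.sqrt k)⁻¹ • s) ≤ 1 := by
      rw [hn, div_le_one hkpos]
      exact hk1
    have h1 := hC _ hn1
    have h2 : Q ((Real.sqrt k)⁻¹ • s) = Q s / (k : ℂ) := by
      rw [hP.homQ]
      have : (((Real.sqrt k)⁻¹ : ℝ) : ℂ) ^ 2 = ((k : ℂ))⁻¹ := by
        rw [← Complex.ofReal_pow, inv_pow, hsq]
        push_cast
        rfl
      rw [this]
      ring
    rw [h2, hn] at h1
    have h3 : Real.sqrt (nsq s / k) ^ 3 = Real.sqrt (nsq s) ^ 3 / Real.sqrt k ^ 3 := by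
      rw [Real.sqrt_div hnn, div_pow]
    rw [h3] at h1
    have h4 : (k : ℂ) * (nf P q (u + (Real.sqrt k)⁻¹ • s) - 1) - -(Q s) / 2 =
        (k : ℂ) * (nf P q (u + (Real.sqrt k)⁻¹ • s) - (1 - Q s / (k : ℂ) / 2)) := by
      have hkc : (k : ℂ) ≠ 0 := by exact_mod_cast hkpos.ne'
      field_simp
      ring
    rw [h4, norm_mul, Complex.norm_natCast]
    calc (k : ℝ) * ‖nf P q (u + (Real.sqrt k)⁻¹ • s) - (1 - Q s / (k : ℂ) / 2)‖ ≤
          (k : ℝ) * (max C0 0 * (Real.sqrt (nsq s) ^ 3 / Real.sqrt k ^ 3)) := by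
          gcongr
          refine h1.trans ?_
          gcongr
          exact le_max_left _ _
      _ = (max C0 0 * Real.sqrt (nsq s) ^ 3) * (Real.sqrt k)⁻¹ := by
          rw [← hsq]
          field_simp
          rw [Real.sqrt_sq hsp.le]
          ring
  have h5 := Complex.tendsto_one_add_pow_exp_of_tendsto hg
  simpa using h5

/-- the rescaled integrand -/
noncomputable def Gk (P : (ι → ℝ) → ℂ) (q : ℝ) (u : ι → ℝ) (h : (ι → ℝ) → ℂ) (k : ℕ)
    (s : ι → ℝ) : ℂ :=
  (Hs u).indicator (fun y => nf P q y ^ k * h y) (u + (Real.sqrt k)⁻¹ • s)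

theorem Gk_int (P : (ι → ℝ) → ℂ) (q : ℝ) (u : ι → ℝ) (h : (ι → ℝ) → ℂ) (k : ℕ) (hk : 1 ≤ k) :
    ∫ s, Gk P q u h k s = (((k : ℝ) ^ ((Fintype.card ι : ℝ) / 2) : ℝ) : ℂ) *
      ∫ y in Hs u, nf P q y ^ k * h y := by
  have hkpos : (0 : ℝ) < k := by exact_mod_cast hk
  unfold Gk
  have h1 := Measure.integral_comp_inv_smul (volume : Measure (ι → ℝ))
    (fun y => (Hs u).indicator (fun y => nf P q y ^ k * h y) (u + y)) (Real.sqrt k)
  rw [h1, integral_add_left_eq_self (fun y => (Hs u).indicator (fun y => nf P q y ^ k * h y) y) u,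
    integral_indicator (Hs_open u).measurableSet, Module.finrank_fintype_fun_eq_card]
  have h2 : |Real.sqrt k ^ Fintype.card ι| = (k : ℝ) ^ ((Fintype.card ι : ℝ) / 2) := by
    rw [abs_of_nonneg (by positivity), Real.sqrt_eq_rpow, ← Real.rpow_natCast,
      ← Real.rpow_mul hkpos.le]
    congr 1
    ring
  rw [h2, Complex.real_smul]

theorem Gk_lim (hP : Peak P u q Q) (h : (ι → ℝ) → ℂ) (hh : Continuous h)
    (hb : ∃ C : ℝ, ∀ y, ‖h y‖ ≤ C) :
    Tendsto (fun k : ℕ => ∫ s, Gk P q u h k s) atTop (𝓝 (h u * GG Q)) := by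
  obtain ⟨C, hC⟩ := hb
  obtain ⟨c, hc, hdom⟩ := nf_dom hP
  have hC0 : 0 ≤ C := (norm_nonneg _).trans (hC u)
  have hcn := nf_cont hP
  have hlimint : h u * GG Q = ∫ s, Complex.exp (-(Q s) / 2) * h u := by
    unfold GG
    rw [integral_mul_const]
    ring
  rw [hlimint]
  have hint : Integrable (fun s : ι → ℝ => C * Real.exp (-(c * nsq s))) := by
    have h1 := (PG.const (ι := ι) 1).integrable c hc
    have h2 := h1.norm.const_mul C
    refine h2.congr ?_
    filter_upwards with s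
    rw [one_mul, Complex.norm_real, Real.norm_eq_abs, abs_of_pos (Real.exp_pos _)]
  -- shift the index by one
  rw [← tendsto_add_atTop_iff_nat 1]
  apply tendsto_integral_of_dominated_convergence (fun s => C * Real.exp (-(c * nsq s)))
  · intro k
    unfold Gk
    have h1 : StronglyMeasurable ((Hs u).indicator (fun y => nf P q y ^ (k + 1) * h y)) :=
      ((hcn.pow _).mul hh).stronglyMeasurable.indicator (Hs_open u).measurableSet
    have h2 : Measurable (fun s : ι → ℝ => u + (Real.sqrt ((k + 1 : ℕ) : ℝ))⁻¹ • s) := by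
      apply Continuous.measurable
      fun_prop
    exact (h1.comp_measurable h2).aestronglyMeasurable
  · exact hint
  · intro k
    filter_upwards with s
    unfold Gk
    have hkpos : (0 : ℝ) < ((k + 1 : ℕ) : ℝ) := by positivity
    have hsq : Real.sqrt ((k + 1 : ℕ) : ℝ) ^ 2 = ((k + 1 : ℕ) : ℝ) := Real.sq_sqrt hkpos.le
    by_cases hs : u + (Real.sqrt ((k + 1 : ℕ) : ℝ))⁻¹ • s ∈ Hs u
    · rw [Set.indicator_of_mem hs, norm_mul, norm_pow]
      have h1 := hdom _ (le_of_lt hs)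
      rw [add_sub_cancel_left, nsq_smul, inv_pow, hsq] at h1
      calc ‖nf P q (u + (Real.sqrt ((k + 1 : ℕ) : ℝ))⁻¹ • s)‖ ^ (k + 1) *
            ‖h (u + (Real.sqrt ((k + 1 : ℕ) : ℝ))⁻¹ • s)‖ ≤
            Real.exp (-(c * ((((k + 1 : ℕ) : ℝ))⁻¹ * nsq s))) ^ (k + 1) * C := by
            gcongr
            exact hC _
        _ = C * Real.exp (-(c * nsq s)) := by
            rw [← Real.exp_nat_mul, mul_comm]
            congr 2
            field_simp
    · rw [Set.indicator_of_notMem hs, norm_zero]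
      positivity
  · filter_upwards with s
    have hpt : Tendsto (fun k : ℕ => u + (Real.sqrt k)⁻¹ • s) atTop (𝓝 (u + (0 : ℝ) • s)) := by
      apply Tendsto.const_add
      apply Tendsto.smul_const
      apply Tendsto.inv_tendsto_atTop
      exact Real.tendsto_sqrt_atTop.comp tendsto_natCast_atTop_atTop
    rw [zero_smul, add_zero] at hpt
    have h1 : Tendsto (fun k : ℕ => nf P q (u + (Real.sqrt k)⁻¹ • s) ^ k *
        h (u + (Real.sqrt k)⁻¹ • s)) atTop (𝓝 (Complex.exp (-(Q s) / 2) * h u)) :=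
      (nf_lim hP s).mul ((hh.tendsto u).comp hpt)
    have h2 : ∀ᶠ k : ℕ in atTop, Gk P q u h k s = nf P q (u + (Real.sqrt k)⁻¹ • s) ^ k *
        h (u + (Real.sqrt k)⁻¹ • s) := by
      have h3 : ∀ᶠ k : ℕ in atTop, u + (Real.sqrt k)⁻¹ • s ∈ Hs u :=
        hpt.eventually ((Hs_open u).mem_nhds (u_mem hP))
      filter_upwards [h3] with k hk
      unfold Gk
      rw [Set.indicator_of_mem hk]
    have h4 : Tendsto (fun k : ℕ => Gk P q u h k s) atTop
        (𝓝 (Complex.exp (-(Q s) / 2) * h u)) := by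
      refine h1.congr' ?_
      filter_upwards [h2] with k hk
      exact hk.symm
    exact h4.comp (tendsto_add_atTop_nat 1)

theorem ratio_lim (v : ℕ) (a : ℝ) :
    Tendsto (fun n : ℕ => ((n : ℝ) / ((n - v : ℕ) : ℝ)) ^ a) atTop (𝓝 1) := by
  have h1 : Tendsto (fun n : ℕ => (n : ℝ) / ((n - v : ℕ) : ℝ)) atTop (𝓝 1) := by
    rw [← tendsto_add_atTop_iff_nat v]
    have h2 : Tendsto (fun n : ℕ => 1 + (v : ℝ) / (n : ℝ)) atTop (𝓝 (1 + 0)) :=
      tendsto_const_nhds.add (tendsto_const_div_atTop_nhds_zero_nat (v : ℝ))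
    rw [add_zero] at h2
    refine h2.congr' ?_
    filter_upwards [eventually_ge_atTop 1] with n hn
    have hn' : (n : ℝ) ≠ 0 := by
      have : (1 : ℝ) ≤ n := by exact_mod_cast hn
      linarith
    rw [Nat.add_sub_cancel]
    push_cast
    field_simp
  have h3 := h1.rpow_const (p := a) (Or.inl one_ne_zero)
  simpa using h3

end

theorem LAP : ST_LAP := by
  intro ι _ P u q Q hP v h hh hb
  have hq := hP.q0
  set A : ℝ := q * Real.exp (-(3 / 2)) with hA
  have hApos : 0 < A := by positivity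
  have hmain := (Gk_lim hP h hh hb).comp (tendsto_sub_atTop_nat v)
  have hr := ratio_lim v ((Fintype.card ι : ℝ) / 2)
  have hrc : Tendsto (fun n : ℕ => ((((n : ℝ) / ((n - v : ℕ) : ℝ)) ^ ((Fintype.card ι : ℝ) / 2) : ℝ) :
      ℂ)) atTop (𝓝 ((1 : ℝ) : ℂ)) :=
    (Complex.continuous_ofReal.tendsto 1).comp hr
  have hprod := (hrc.mul hmain).div_const ((A : ℂ) ^ v)
  have e0 : ((1 : ℝ) : ℂ) * (h u * GG Q) / (A : ℂ) ^ v = h u / (A : ℂ) ^ v * GG Q := by
    push_cast
    ring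
  rw [e0] at hprod
  refine hprod.congr' ?_
  filter_upwards [eventually_ge_atTop (v + 1)] with n hn
  simp only [Function.comp_apply]
  set k := n - v with hk
  have hk1 : 1 ≤ k := by omega
  have hnk : n = k + v := by omega
  have hkpos : (0 : ℝ) < (k : ℝ) := by exact_mod_cast hk1
  have hnpos : (0 : ℝ) < (n : ℝ) := by
    have : 1 ≤ n := by omega
    exact_mod_cast this
  rw [Gk_int P q u h k hk1]
  have e1 : ∫ y in {y : ι → ℝ | 0 < ∑ i, u i * y i},
      (P y * ((Real.exp (-(3 / 2) * nsq y) : ℝ) : ℂ)) ^ k * h y =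
      (A : ℂ) ^ k * ∫ y in Hs u, nf P q y ^ k * h y := by
    rw [← integral_const_mul]
    congr 1
    funext y
    have e2 : P y * ((Real.exp (-(3 / 2) * nsq y) : ℝ) : ℂ) = (A : ℂ) * nf P q y := by
      unfold nf
      have e3 : Real.exp (-(3 / 2) * nsq y) = Real.exp (-(3 / 2)) *
          Real.exp (-(3 / 2) * (nsq y - 1)) := by
        rw [← Real.exp_add]
        ring_nf
      rw [e3, hA]
      have hqc : (q : ℂ) ≠ 0 := by exact_mod_cast hq.ne'
      push_cast
      field_simp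
    rw [e2, mul_pow]
    ring
  rw [e1]
  have e4 : (((n : ℝ) / (k : ℝ)) ^ ((Fintype.card ι : ℝ) / 2)) *
      (k : ℝ) ^ ((Fintype.card ι : ℝ) / 2) = (n : ℝ) ^ ((Fintype.card ι : ℝ) / 2) := by
    rw [← Real.mul_rpow (by positivity) hkpos.le]
    congr 1
    field_simp
  rw [← e4]
  have hAc : (A : ℂ) ≠ 0 := by exact_mod_cast hApos.ne'
  have e5 : (A : ℂ) ^ n = (A : ℂ) ^ k * (A : ℂ) ^ v := by rw [hnk, pow_add]
  push_cast
  rw [e5]
  field_simp

end Pool.Agent.Helper88.T4
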