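import Pool.Agent.Helper88.T4.Poly

set_option autoImplicit false

/-! The normalised integrand of the Laplace method and its Gaussian domination on the half space. -/

open Finset MeasureTheory Filter Topology

namespace Pool.Agent.Helper88.T4

open Pool.Agent.Helper15.T4

section

variable {ι : Type} [Fintype ι] {P : (ι → ℝ) → ℂ} {u : ι → ℝ} {q : ℝ} {Q : (ι → ℝ) → ℂ}

/-- the normalised integrand -/
noncomputable def nf (P : (ι → ℝ) → ℂ) (q : ℝ) (y : ι → ℝ) : ℂ :=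
  P y * ((Real.exp (-(3 / 2) * (nsq y - 1)) : ℝ) : ℂ) / (q : ℂ)

theorem nf_cont (hP : Peak P u q Q) : Continuous (nf P q) := by
  have h1 := hP.cont
  have h2 := continuous_nsq (ι := ι)
  unfold nf
  fun_prop

theorem nf_norm_sq (hP : Peak P u q Q) (y : ι → ℝ) :
    ‖nf P q y‖ ^ 2 = ‖P y‖ ^ 2 / q ^ 2 * Real.exp (-(nsq y - 1)) ^ 3 := by
  have hq := hP.q0
  unfold nf
  rw [norm_div, norm_mul, Complex.norm_real, Complex.norm_real, Real.norm_eq_abs, Real.norm_eq_abs,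
    abs_of_pos (Real.exp_pos _), abs_of_pos hq, div_pow, mul_pow, ← Real.exp_nat_mul,
    ← Real.exp_nat_mul]
  have : ((2 : ℕ) : ℝ) * (-(3 / 2) * (nsq y - 1)) = ((3 : ℕ) : ℝ) * (-(nsq y - 1)) := by
    push_cast
    ring
  rw [this]
  ring

theorem nf_norm_sq_le (hP : Peak P u q Q) (y : ι → ℝ) :
    ‖nf P q y‖ ^ 2 ≤ (nsq y * Real.exp (-(nsq y - 1))) ^ 3 := by
  have hq := hP.q0
  rw [nf_norm_sq hP, mul_pow]
  gcongr
  rw [div_le_iff₀ (by positivity)]
  have := hP.le y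
  linarith

theorem w_le (w : ℝ) : w * Real.exp (-(w - 1)) ≤ 1 := by
  have h := Real.add_one_le_exp (w - 1)
  rw [Real.exp_neg]
  rw [mul_inv_le_iff₀ (Real.exp_pos _)]
  linarith

theorem w_lt (w : ℝ) (hw : w ≠ 1) : w * Real.exp (-(w - 1)) < 1 := by
  have h := Real.add_one_lt_exp (sub_ne_zero.mpr hw)
  rw [Real.exp_neg]
  rw [mul_inv_lt_iff₀ (Real.exp_pos _)]
  linarith

theorem nf_lt (hP : Peak P u q Q) (y : ι → ℝ) (hy : 0 ≤ ∑ i, u i * y i) (hyu : y ≠ u) :
    ‖nf P q y‖ < 1 := by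
  have hq := hP.q0
  by_contra hc
  push Not at hc
  have h1 : 1 ≤ ‖nf P q y‖ ^ 2 := by nlinarith
  have h2 := nf_norm_sq_le hP y
  have hw : nsq y = 1 := by
    by_contra hne
    have h3 := w_lt (nsq y) hne
    have h4 : 0 ≤ nsq y * Real.exp (-(nsq y - 1)) :=
      mul_nonneg (nsq_nonneg y) (Real.exp_pos _).le
    have h5 : (nsq y * Real.exp (-(nsq y - 1))) ^ 3 < 1 := pow_lt_one₀ h4 h3 (by norm_num)
    linarith
  have h6 := nf_norm_sq hP y
  rw [hw] at h6
  simp at h6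
  have h7 := hP.le y
  have h8 : ‖P y‖ ^ 2 = q ^ 2 * nsq y ^ 3 := by
    rw [h6, le_div_iff₀ (by positivity)] at h1
    rw [hw] at h7 ⊢
    linarith
  obtain ⟨s, hs⟩ := hP.eq y h8
  have h9 : s ^ 2 = 1 := by
    have := nsq_smul s u
    rw [← hs, hw, hP.u1] at this
    linarith
  have h10 : ∑ i, u i * y i = s := by
    have : ∑ i, u i * y i = s * nsq u := by
      unfold nsq
      rw [Finset.mul_sum]
      apply Finset.sum_congr rfl
      intro i _
      rw [hs]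
      simp
      ring
    rw [this, hP.u1, mul_one]
  rw [h10] at hy
  have h11 : s = 1 := by nlinarith
  apply hyu
  rw [hs, h11, one_smul]

theorem nsq_sub_le (x y : ι → ℝ) : nsq (x - y) ≤ 2 * nsq x + 2 * nsq y := by
  unfold nsq
  rw [Finset.mul_sum, Finset.mul_sum, ← Finset.sum_add_distrib]
  apply Finset.sum_le_sum
  intro i _
  simp only [Pi.sub_apply]
  nlinarith [sq_nonneg (x i + y i)]

theorem nf_far (hP : Peak P u q Q) (y : ι → ℝ) (hy : 10 ≤ nsq y) :
    ‖nf P q y‖ ≤ Real.exp (-(1 / 20 * nsq (y - u))) := by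
  have h1 := nf_norm_sq_le hP y
  have h2 : nsq y * Real.exp (-(nsq y - 1)) ≤ 2 * Real.exp (-(nsq y / 2)) := by
    have h3 := Real.add_one_le_exp (nsq y / 2 - 1)
    calc nsq y * Real.exp (-(nsq y - 1)) ≤ (2 * Real.exp (nsq y / 2 - 1)) *
          Real.exp (-(nsq y - 1)) := by
          gcongr
          linarith
      _ = 2 * Real.exp (-(nsq y / 2)) := by
          rw [mul_assoc, ← Real.exp_add]
          ring_nf
  have h4 : 0 ≤ nsq y * Real.exp (-(nsq y - 1)) :=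
    mul_nonneg (nsq_nonneg y) (Real.exp_pos _).le
  have h5 : ‖nf P q y‖ ^ 2 ≤ (2 * Real.exp (-(nsq y / 2))) ^ 3 := by
    refine h1.trans ?_
    gcongr
  have h6 : (2 * Real.exp (-(nsq y / 2))) ^ 3 ≤ Real.exp (-(1 / 20 * nsq (y - u))) ^ 2 := by
    rw [mul_pow, ← Real.exp_nat_mul, ← Real.exp_nat_mul]
    have h7 : (2 : ℝ) ^ 3 ≤ Real.exp (13 / 10 * nsq y - 2 / 10) := by
      have := Real.add_one_le_exp (13 / 10 * nsq y - 2 / 10)
      linarith
    calc (2 : ℝ) ^ 3 * Real.exp (((3 : ℕ) : ℝ) * (-(nsq y / 2))) ≤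
          Real.exp (13 / 10 * nsq y - 2 / 10) * Real.exp (((3 : ℕ) : ℝ) * (-(nsq y / 2))) := by
          gcongr
      _ = Real.exp (13 / 10 * nsq y - 2 / 10 + ((3 : ℕ) : ℝ) * (-(nsq y / 2))) := by
          rw [← Real.exp_add]
      _ ≤ Real.exp (((2 : ℕ) : ℝ) * (-(1 / 20 * nsq (y - u)))) := by
          apply Real.exp_le_exp.mpr
          have := nsq_sub_le y u
          rw [hP.u1] at this
          push_cast
          linarith
  exact le_of_sq_le_sq (h5.trans h6) (Real.exp_pos _).le |>.trans le_rfl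

theorem Q_bound (hP : Peak P u q Q) : ∃ K : ℝ, 0 ≤ K ∧ ∀ x, ‖Q x‖ ≤ K * nsq x := by
  have hc : IsCompact (Metric.closedBall (0 : ι → ℝ) 1) := isCompact_closedBall _ _
  obtain ⟨K, hK⟩ := hc.exists_bound_of_continuousOn (f := Q) hP.contQ.continuousOn
  refine ⟨max K 0, le_max_right _ _, fun x => ?_⟩
  have h0 : Q x = ((‖x‖ : ℝ) : ℂ) ^ 2 * Q (‖x‖⁻¹ • x) := by
    rcases eq_or_ne x 0 with rfl | hx
    · have := hP.homQ 0 (0 : ι → ℝ)
      simp at this
      simp [this]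
    · rw [← hP.homQ, smul_smul, mul_inv_cancel₀ (norm_ne_zero_iff.mpr hx), one_smul]
  have h1 : ‖Q (‖x‖⁻¹ • x)‖ ≤ K := by
    apply hK
    rw [mem_closedBall_zero_iff, norm_smul, norm_inv, norm_norm]
    rcases eq_or_ne x 0 with rfl | hx
    · simp
    · rw [inv_mul_cancel₀ (norm_ne_zero_iff.mpr hx)]
  rw [h0, norm_mul, norm_pow, Complex.norm_real, norm_norm]
  calc ‖x‖ ^ 2 * ‖Q (‖x‖⁻¹ • x)‖ ≤ ‖x‖ ^ 2 * max K 0 := by
        gcongr
        exact h1.trans (le_max_left _ _)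
    _ ≤ nsq x * max K 0 := by
        gcongr
        exact norm_sq_le_nsq x
    _ = max K 0 * nsq x := mul_comm _ _

theorem nf_near (hP : Peak P u q Q) : ∃ r c : ℝ, 0 < r ∧ 0 < c ∧ ∀ t : ι → ℝ, nsq t ≤ r ^ 2 →
    ‖nf P q (u + t)‖ ≤ Real.exp (-(c * nsq t)) := by
  obtain ⟨K0, hK0, hK⟩ := Q_bound hP
  obtain ⟨c, hc, hQ⟩ := hP.posQ
  obtain ⟨C0, hC⟩ := hP.exp
  set K := max K0 c with hKdef
  set C := max C0 0 with hCdef
  have hKc : c ≤ K := le_max_right _ _
  have hC0 : 0 ≤ C := le_max_right _ _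
  have hK1 : ∀ x, ‖Q x‖ ≤ K * nsq x := fun x => (hK x).trans
    (mul_le_mul_of_nonneg_right (le_max_left _ _) (nsq_nonneg x))
  set r := min 1 (c / (4 * (K ^ 2 / 8 + C + 1))) with hr
  have hrpos : 0 < r := by
    rw [hr]
    apply lt_min one_pos
    positivity
  have hr1 : r ≤ 1 := min_le_left _ _
  have hr2 : (K ^ 2 / 8 + C) * r ≤ c / 4 := by
    have h3 : r ≤ c / (4 * (K ^ 2 / 8 + C + 1)) := min_le_right _ _
    rw [le_div_iff₀ (by positivity)] at h3
    nlinarith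
  refine ⟨r, c / 4, hrpos, by positivity, fun t ht => ?_⟩
  have hs0 := nsq_nonneg t
  set s := Real.sqrt (nsq t) with hsdef
  have hs : s ^ 2 = nsq t := Real.sq_sqrt hs0
  have hspos : 0 ≤ s := Real.sqrt_nonneg _
  have hsr : s ≤ r := by
    rw [hsdef]
    exact (Real.sqrt_le_left hrpos.le).mpr ht
  have h1 : nsq t ≤ 1 := ht.trans (by nlinarith)
  have h2 : ‖nf P q (u + t) - (1 - Q t / 2)‖ ≤ C * s ^ 3 := by
    refine (hC t h1).trans ?_
    rw [← hsdef]
    gcongr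
    exact le_max_left _ _
  have h3 : ‖1 - Q t / 2‖ ≤ 1 - c / 2 * s ^ 2 + K ^ 2 / 8 * s ^ 4 := by
    have h4 : ‖1 - Q t / 2‖ ^ 2 ≤ (1 - c / 2 * s ^ 2 + K ^ 2 / 8 * s ^ 4) ^ 2 := by
      have h5 : ‖1 - Q t / 2‖ ^ 2 = 1 - (Q t).re + ‖Q t‖ ^ 2 / 4 := by
        rw [← Complex.normSq_eq_norm_sq, ← Complex.normSq_eq_norm_sq, Complex.normSq_apply,
          Complex.normSq_apply]
        have e1 : (1 - Q t / 2).re = 1 - (Q t).re / 2 := by
          simp
        have e2 : (1 - Q t / 2).im = -((Q t).im / 2) := by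
          simp
        rw [e1, e2]
        ring
      have h6 := hQ t
      have h7 := hK1 t
      rw [← hs] at h6 h7
      have h8 : ‖Q t‖ ^ 2 ≤ (K * s ^ 2) ^ 2 := by
        gcongr
      rw [h5]
      nlinarith [sq_nonneg (-(c / 2 * s ^ 2) + K ^ 2 / 8 * s ^ 4)]
    have h9 : 0 ≤ 1 - c / 2 * s ^ 2 + K ^ 2 / 8 * s ^ 4 := by
      have h10 : c ^ 2 ≤ K ^ 2 := by gcongr
      have h11 : c ^ 2 * s ^ 4 ≤ K ^ 2 * s ^ 4 := by gcongr
      nlinarith [sq_nonneg (c * s ^ 2 / 2 - 1)]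
    exact (le_abs_self _).trans (abs_le_of_sq_le_sq h4 h9)
  have h12 : ‖nf P q (u + t)‖ ≤ 1 - c / 4 * s ^ 2 := by
    have h13 : ‖nf P q (u + t)‖ ≤ ‖nf P q (u + t) - (1 - Q t / 2)‖ + ‖1 - Q t / 2‖ := by
      have := norm_add_le (nf P q (u + t) - (1 - Q t / 2)) (1 - Q t / 2)
      simpa using this
    have h14 : K ^ 2 / 8 * s ^ 4 + C * s ^ 3 ≤ c / 4 * s ^ 2 := by
      have h15 : K ^ 2 / 8 * s ^ 2 + C * s ≤ c / 4 := by
        have : s ^ 2 ≤ s := by nlinarith
        have h16 : K ^ 2 / 8 * s ^ 2 ≤ K ^ 2 / 8 * s := by gcongr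
        have h17 : (K ^ 2 / 8 + C) * s ≤ (K ^ 2 / 8 + C) * r := by gcongr
        linarith
      have h18 : s ^ 2 * (K ^ 2 / 8 * s ^ 2 + C * s) ≤ s ^ 2 * (c / 4) := by gcongr
      nlinarith
    linarith
  rw [hs] at h12
  have h19 := Real.add_one_le_exp (-(c / 4 * nsq t))
  linarith

theorem nf_dom (hP : Peak P u q Q) : ∃ c : ℝ, 0 < c ∧ ∀ y : ι → ℝ, 0 ≤ ∑ i, u i * y i →
    ‖nf P q y‖ ≤ Real.exp (-(c * nsq (y - u))) := by
  obtain ⟨r, c1, hr, hc1, h1⟩ := nf_near hP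
  have hcn := continuous_nsq (ι := ι)
  -- the middle region
  let M : Set (ι → ℝ) := {y | 0 ≤ ∑ i, u i * y i} ∩ ({y | r ^ 2 ≤ nsq (y - u)} ∩ {y | nsq y ≤ 10})
  have hMc : IsCompact M := by
    apply Metric.isCompact_of_isClosed_isBounded
    · apply IsClosed.inter
      · exact isClosed_le continuous_const (by fun_prop)
      · apply IsClosed.inter
        · exact isClosed_le continuous_const (hcn.comp (continuous_id.sub continuous_const))
        · exact isClosed_le hcn continuous_const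
    · rw [Metric.isBounded_iff_subset_closedBall (0 : ι → ℝ)]
      refine ⟨4, fun y hy => ?_⟩
      rw [mem_closedBall_zero_iff]
      have h2 := norm_sq_le_nsq y
      have h3 : nsq y ≤ 10 := hy.2.2
      nlinarith [norm_nonneg y]
  have hM : ∃ η : ℝ, 0 < η ∧ ∀ y ∈ M, ‖nf P q y‖ ≤ 1 - η := by
    rcases M.eq_empty_or_nonempty with he | hne
    · exact ⟨1, one_pos, fun y hy => by rw [he] at hy; exact absurd hy (Set.notMem_empty y)⟩
    · obtain ⟨y0, hy0, hmax⟩ := hMc.exists_isMaxOn hne (nf_cont hP).norm.continuousOn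
      have h4 : y0 ≠ u := by
        rintro rfl
        have h5 : r ^ 2 ≤ nsq (y0 - y0) := hy0.2.1
        rw [sub_self] at h5
        have h6 : nsq (0 : ι → ℝ) = 0 := by simp [nsq]
        rw [h6] at h5
        nlinarith
      have h7 := nf_lt hP y0 hy0.1 h4
      exact ⟨1 - ‖nf P q y0‖, by linarith, fun y hy => by
        have := hmax hy
        simp only [Set.mem_ofPred_eq] at this
        linarith⟩
  obtain ⟨η, hη, hM2⟩ := hM
  refine ⟨min (min c1 (1 / 20)) (η / 22), by positivity, fun y hy => ?_⟩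
  set c := min (min c1 (1 / 20)) (η / 22) with hc
  have hcc1 : c ≤ c1 := (min_le_left _ _).trans (min_le_left _ _)
  have hcc2 : c ≤ 1 / 20 := (min_le_left _ _).trans (min_le_right _ _)
  have hcc3 : c ≤ η / 22 := min_le_right _ _
  have hn := nsq_nonneg (y - u)
  by_cases h8 : nsq (y - u) ≤ r ^ 2
  · have h9 := h1 (y - u) h8
    rw [add_sub_cancel] at h9
    refine h9.trans (Real.exp_le_exp.mpr ?_)
    nlinarith
  · push Not at h8
    by_cases h10 : nsq y ≤ 10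
    · have h11 := hM2 y ⟨hy, h8.le, h10⟩
      have h12 := nsq_sub_le y u
      rw [hP.u1] at h12
      have h13 := Real.add_one_le_exp (-(c * nsq (y - u)))
      have h14 : c * nsq (y - u) ≤ η := by
        calc c * nsq (y - u) ≤ (η / 22) * 22 := by
              gcongr
              linarith
          _ = η := by ring
      linarith
    · push Not at h10
      refine (nf_far hP y h10.le).trans (Real.exp_le_exp.mpr ?_)
      nlinarith

end

end Pool.Agent.Helper88.T4
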