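import Pool.Agent.Helper15.T4.Stmts

set_option autoImplicit false

/-! Functions of polynomial growth and Gaussian weights (for the modules IBP and LAP). -/

open Finset MeasureTheory Filter Topology

namespace Pool.Agent.Helper88.T4

open Pool.Agent.Helper15.T4

section

variable {ι : Type} [Fintype ι]

theorem nsq_nonneg (x : ι → ℝ) : 0 ≤ nsq x := Finset.sum_nonneg (fun _ _ => sq_nonneg _)

theorem abs_le_sqrt_nsq (x : ι → ℝ) (i : ι) : |x i| ≤ Real.sqrt (nsq x) := by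
  apply Real.abs_le_sqrt
  exact Finset.single_le_sum (f := fun i => x i ^ 2) (fun _ _ => sq_nonneg _) (Finset.mem_univ i)

theorem norm_le_sqrt_nsq (x : ι → ℝ) : ‖x‖ ≤ Real.sqrt (nsq x) := by
  rw [pi_norm_le_iff_of_nonneg (Real.sqrt_nonneg _)]
  intro i
  rw [Real.norm_eq_abs]
  exact abs_le_sqrt_nsq x i

theorem norm_sq_le_nsq (x : ι → ℝ) : ‖x‖ ^ 2 ≤ nsq x := by
  calc ‖x‖ ^ 2 ≤ Real.sqrt (nsq x) ^ 2 := by
        gcongr
        exact norm_le_sqrt_nsq x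
    _ = nsq x := Real.sq_sqrt (nsq_nonneg x)

theorem nsq_le_norm (x : ι → ℝ) : nsq x ≤ (Fintype.card ι : ℝ) * ‖x‖ ^ 2 := by
  unfold nsq
  calc ∑ i, x i ^ 2 ≤ ∑ _i : ι, ‖x‖ ^ 2 := by
        apply Finset.sum_le_sum
        intro i _
        rw [← sq_abs]
        gcongr
        rw [← Real.norm_eq_abs]
        exact norm_le_pi_norm x i
    _ = (Fintype.card ι : ℝ) * ‖x‖ ^ 2 := by simp

theorem nsq_smul (s : ℝ) (x : ι → ℝ) : nsq (s • x) = s ^ 2 * nsq x := by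
  unfold nsq
  rw [Finset.mul_sum]
  apply Finset.sum_congr rfl
  intro i _
  simp [mul_pow]

theorem continuous_nsq : Continuous (fun x : ι → ℝ => nsq x) := by
  unfold nsq
  fun_prop

theorem gauss_bound (a : ℝ) (ha : 0 < a) (k : ℕ) (t : ℝ) (ht : 0 ≤ t) :
    (1 + t) ^ k * Real.exp (-(a * t ^ 2)) ≤ Real.exp ((k : ℝ) ^ 2 / (4 * a)) := by
  have h1 : (1 + t) ^ k ≤ Real.exp ((k : ℝ) * t) := by
    rw [Real.exp_nat_mul]
    gcongr
    rw [add_comm]
    exact Real.add_one_le_exp t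
  calc (1 + t) ^ k * Real.exp (-(a * t ^ 2)) ≤ Real.exp ((k : ℝ) * t) * Real.exp (-(a * t ^ 2)) := by
        gcongr
    _ = Real.exp ((k : ℝ) * t - a * t ^ 2) := by rw [← Real.exp_add]; ring_nf
    _ ≤ Real.exp ((k : ℝ) ^ 2 / (4 * a)) := by
        apply Real.exp_le_exp.mpr
        rw [le_div_iff₀ (by positivity)]
        nlinarith [sq_nonneg ((k : ℝ) - 2 * a * t)]

/-- continuous functions of polynomial growth -/
def PG (φ : (ι → ℝ) → ℂ) : Prop :=
  Continuous φ ∧ ∃ (C : ℝ) (m : ℕ), 0 ≤ C ∧ ∀ x, ‖φ x‖ ≤ C * (1 + ‖x‖) ^ m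

theorem PG.const (c : ℂ) : PG (fun _ : ι → ℝ => c) :=
  ⟨continuous_const, ‖c‖, 0, norm_nonneg _, fun x => by simp⟩

theorem PG.coord (i : ι) : PG (fun x : ι → ℝ => (x i : ℂ)) := by
  refine ⟨by fun_prop, 1, 1, zero_le_one, fun x => ?_⟩
  rw [Complex.norm_real]
  have := norm_le_pi_norm x i
  linarith [norm_nonneg x]

theorem PG.mul {φ ψ : (ι → ℝ) → ℂ} (h1 : PG φ) (h2 : PG ψ) : PG (fun x => φ x * ψ x) := by
  obtain ⟨c1, C1, m1, p1, b1⟩ := h1
  obtain ⟨c2, C2, m2, p2, b2⟩ := h2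
  refine ⟨c1.mul c2, C1 * C2, m1 + m2, by positivity, fun x => ?_⟩
  rw [norm_mul, pow_add]
  calc ‖φ x‖ * ‖ψ x‖ ≤ (C1 * (1 + ‖x‖) ^ m1) * (C2 * (1 + ‖x‖) ^ m2) := by
        gcongr
        · exact b1 x
        · exact b2 x
    _ = C1 * C2 * ((1 + ‖x‖) ^ m1 * (1 + ‖x‖) ^ m2) := by ring

theorem PG.add {φ ψ : (ι → ℝ) → ℂ} (h1 : PG φ) (h2 : PG ψ) : PG (fun x => φ x + ψ x) := by
  obtain ⟨c1, C1, m1, p1, b1⟩ := h1
  obtain ⟨c2, C2, m2, p2, b2⟩ := h2
  refine ⟨c1.add c2, C1 + C2, m1 + m2, by positivity, fun x => ?_⟩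
  have hx : 1 ≤ 1 + ‖x‖ := by linarith [norm_nonneg x]
  calc ‖φ x + ψ x‖ ≤ ‖φ x‖ + ‖ψ x‖ := norm_add_le _ _
    _ ≤ C1 * (1 + ‖x‖) ^ (m1 + m2) + C2 * (1 + ‖x‖) ^ (m1 + m2) := by
        gcongr
        · refine (b1 x).trans ?_
          gcongr
          omega
        · refine (b2 x).trans ?_
          gcongr
          omega
    _ = (C1 + C2) * (1 + ‖x‖) ^ (m1 + m2) := by ring

theorem PG.sum {α : Type} (s : Finset α) (φ : α → (ι → ℝ) → ℂ) (h : ∀ a ∈ s, PG (φ a)) :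
    PG (fun x => ∑ a ∈ s, φ a x) := by
  classical
  induction s using Finset.induction_on with
  | empty => simpa using PG.const (ι := ι) 0
  | insert a s ha ih =>
    simp only [Finset.sum_insert ha]
    exact (h a (Finset.mem_insert_self _ _)).add
      (ih (fun b hb => h b (Finset.mem_insert_of_mem hb)))

theorem PG.prod {α : Type} (s : Finset α) (φ : α → (ι → ℝ) → ℂ) (h : ∀ a ∈ s, PG (φ a)) :
    PG (fun x => ∏ a ∈ s, φ a x) := by
  classical
  induction s using Finset.induction_on with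
  | empty => simpa using PG.const (ι := ι) 1
  | insert a s ha ih =>
    simp only [Finset.prod_insert ha]
    exact (h a (Finset.mem_insert_self _ _)).mul
      (ih (fun b hb => h b (Finset.mem_insert_of_mem hb)))

theorem PG.lin (l : ι → ℂ) : PG (fun x : ι → ℝ => ∑ i, l i * (x i : ℂ)) :=
  PG.sum _ _ (fun i _ => (PG.const (l i)).mul (PG.coord i))

theorem PG.integrable {φ : (ι → ℝ) → ℂ} (h : PG φ) (a : ℝ) (ha : 0 < a) :
    Integrable (fun x : ι → ℝ => φ x * ((Real.exp (-(a * nsq x)) : ℝ) : ℂ)) := by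
  obtain ⟨c1, C, m, p, b⟩ := h
  have hr : (Module.finrank ℝ (ι → ℝ) : ℝ) < (Fintype.card ι : ℝ) + 1 := by
    rw [Module.finrank_fintype_fun_eq_card]
    linarith
  have hI := (integrable_one_add_norm (E := ι → ℝ) (μ := volume) hr).const_mul
    (C * Real.exp (((m + Fintype.card ι + 1 : ℕ) : ℝ) ^ 2 / (4 * a)))
  refine hI.mono' ?_ ?_
  · apply Continuous.aestronglyMeasurable
    have := continuous_nsq (ι := ι)
    fun_prop
  · filter_upwards with x
    have hx : 0 ≤ ‖x‖ := norm_nonneg x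
    have hx1 : 0 < 1 + ‖x‖ := by linarith
    rw [norm_mul, Complex.norm_real, Real.norm_eq_abs, abs_of_pos (Real.exp_pos _)]
    have h1 : Real.exp (-(a * nsq x)) ≤ Real.exp (-(a * ‖x‖ ^ 2)) := by
      apply Real.exp_le_exp.mpr
      have := norm_sq_le_nsq x
      nlinarith
    have h2 := gauss_bound a ha (m + Fintype.card ι + 1) ‖x‖ hx
    have h3 : (1 + ‖x‖) ^ (-((Fintype.card ι : ℝ) + 1)) = ((1 + ‖x‖) ^ (Fintype.card ι + 1))⁻¹ := by
      rw [Real.rpow_neg hx1.le]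
      congr 1
      rw [← Real.rpow_natCast]
      push_cast
      rfl
    rw [h3]
    calc ‖φ x‖ * Real.exp (-(a * nsq x)) ≤ (C * (1 + ‖x‖) ^ m) * Real.exp (-(a * ‖x‖ ^ 2)) := by
          gcongr
          exact b x
      _ = C * ((1 + ‖x‖) ^ (m + Fintype.card ι + 1) * Real.exp (-(a * ‖x‖ ^ 2))) *
            ((1 + ‖x‖) ^ (Fintype.card ι + 1))⁻¹ := by
          rw [add_assoc, pow_add]
          field_simp
      _ ≤ C * Real.exp (((m + Fintype.card ι + 1 : ℕ) : ℝ) ^ 2 / (4 * a)) *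
            ((1 + ‖x‖) ^ (Fintype.card ι + 1))⁻¹ := by
          gcongr

end

end Pool.Agent.Helper88.T4
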